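import Mathlib

namespace Pool.Agent.Results.MP_23a291_gt.HausdorffExample

open Set Topology Filter

/-- A sequence of open covers of `X`. -/
def Covers {X : Type} [TopologicalSpace X] (U : ℕ → Set (Set X)) : Prop :=
  ∀ n, (∀ S ∈ U n, IsOpen S) ∧ ⋃₀ U n = univ

/-- `V n` is a finite subset of `U n` for every `n`. -/
def Selection {X : Type} (U V : ℕ → Set (Set X)) : Prop := ∀ n, V n ⊆ U n ∧ (V n).Finite

/-- Almost Scheepers. -/
def AlmostScheepers (X : Type) [TopologicalSpace X] : Prop :=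
  ∀ U : ℕ → Set (Set X), Covers U → ∃ V, Selection U V ∧
    ∀ F : Set X, F.Finite → {n | F ⊆ closure (⋃₀ V n)}.Infinite

/-- Weakly Scheepers. -/
def WeaklyScheepers (X : Type) [TopologicalSpace X] : Prop :=
  ∀ U : ℕ → Set (Set X), Covers U → ∃ V, Selection U V ∧
    ∀ F : Set (Set X), F.Finite → (∀ S ∈ F, IsOpen S ∧ S.Nonempty) →
      {n | ∀ S ∈ F, (S ∩ ⋃₀ V n).Nonempty}.Infinite

/-- Weakly Scheepers in the sense of Kocinac. -/
def WeaklyScheepersK (X : Type) [TopologicalSpace X] : Prop :=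
  ∀ U : ℕ → Set (Set X), Covers U → ∃ Y : Set X, Dense Y ∧ ∃ V, Selection U V ∧
    ∀ F : Set X, F ⊆ Y → F.Finite → {n | F ⊆ ⋃₀ V n}.Infinite

abbrev K : Type := ℕ × ℕ × ℕ → Bool

noncomputable def h (x : K) (n : ℕ) : ℕ := sInf {k | ∀ᶠ m in atTop, x (n, k, m) = true}

def B (N : ℕ) (g : ℕ → ℕ) : Set K := {x | (∀ n < N, h x n = 0) ∧ ∀ᶠ n in atTop, g n < h x n}

lemma B_dense (N : ℕ) (g : ℕ → ℕ) {O : Set K} (hO : IsOpen O) {x : K} (hx : x ∈ O) :
    (O ∩ B N g).Nonempty := by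
  classical
  obtain ⟨S, u, h1, h2⟩ := isOpen_pi_iff.1 hO x hx
  let y : ℕ → ℕ := fun n => if n < N then 0 else g n + 1
  let z : K := fun c => if c ∈ S then x c else decide (c.2.1 = y c.1)
  have hz : ∀ n, h z n = y n := by
    intro n
    have : {k | ∀ᶠ m in atTop, z (n, k, m) = true} = {y n} := by
      ext k
      have ev : ∀ᶠ m in atTop, (n, k, m) ∉ S := by
        filter_upwards [eventually_gt_atTop (S.sup fun c => c.2.2)] with m hm hs
        exact absurd (Finset.le_sup (f := fun c : ℕ × ℕ × ℕ => c.2.2) hs) (not_le.2 hm)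
      constructor
      · intro hk
        obtain ⟨m, a, b⟩ := (Eventually.and hk ev).exists
        simpa [z, b] using a
      · rintro rfl
        filter_upwards [ev] with m hm
        simp [z, hm]
    rw [h, this, csInf_singleton]
  refine ⟨z, h2 fun c hc => ?_, fun n hn => ?_, ?_⟩
  · have : c ∈ S := hc
    simp only [z, if_pos this]; exact (h1 c hc).2
  · simp [hz, y, hn]
  · filter_upwards [eventually_ge_atTop N] with n hn
    simp [hz, y, not_lt.2 hn]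

lemma B_mono {N N' : ℕ} {g g' : ℕ → ℕ} (h1 : N ≤ N') (h2 : ∀ n, g n ≤ g' n) : B N' g' ⊆ B N g :=
  fun _ hx => ⟨fun n hn => hx.1 n (hn.trans_le h1), hx.2.mono fun n hn => (h2 n).trans_lt hn⟩

def X : Type := K

def Op (U : Set K) : Prop := ∀ x ∈ U, ∃ O : Set K, IsOpen O ∧ x ∈ O ∧ ∃ N g, O ∩ B N g ⊆ U

instance : TopologicalSpace X where
  IsOpen U := Op U
  isOpen_univ := fun _ _ => ⟨univ, isOpen_univ, trivial, 0, 0, subset_univ _⟩
  isOpen_inter S T hS hT x hx := by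
    obtain ⟨O, a1, a2, N, g, a3⟩ := hS x hx.1
    obtain ⟨O', b1, b2, N', g', b3⟩ := hT x hx.2
    exact ⟨O ∩ O', a1.inter b1, ⟨a2, b2⟩, max N N', fun n => max (g n) (g' n), fun z hz =>
      ⟨a3 ⟨hz.1.1, B_mono (le_max_left _ _) (fun _ => le_max_left _ _) hz.2⟩,
       b3 ⟨hz.1.2, B_mono (le_max_right _ _) (fun _ => le_max_right _ _) hz.2⟩⟩⟩
  isOpen_sUnion s hs := by
    rintro x ⟨t, ht, hx⟩
    obtain ⟨O, a1, a2, N, g, a3⟩ := hs t ht x hx
    exact ⟨O, a1, a2, N, g, a3.trans (subset_sUnion_of_mem ht)⟩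

lemma open_iff (U : Set X) : IsOpen U ↔ Op U := Iff.rfl

lemma op_of {U : Set K} (N : ℕ) (g : ℕ → ℕ) (h : B N g ⊆ U) : Op U :=
  fun _ _ => ⟨univ, isOpen_univ, trivial, N, g, inter_subset_right.trans h⟩

lemma fin_dense (U : Set (Set X)) (h1 : ∀ S ∈ U, IsOpen S) (h2 : ⋃₀ U = univ) :
    ∃ V, (V ⊆ U ∧ V.Finite) ∧ Dense (⋃₀ V) := by
  have : ∀ x : K, ∃ S ∈ U, ∃ O : Set K, IsOpen O ∧ x ∈ O ∧ ∃ N g, O ∩ B N g ⊆ S := fun x => by
    obtain ⟨S, hS, hx⟩ : (x : X) ∈ ⋃₀ U := h2 ▸ mem_univ _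
    exact ⟨S, hS, h1 S hS x hx⟩
  choose S hS O o1 o2 N g o3 using this
  obtain ⟨t, ht⟩ := isCompact_univ.elim_finite_subcover O o1 fun x _ => mem_iUnion.2 ⟨x, o2 x⟩
  refine ⟨S '' t, ⟨by rintro _ ⟨x, -, rfl⟩; exact hS x, t.finite_toSet.image _⟩, ?_⟩
  refine dense_iff_inter_open.2 fun W hW ⟨z, hz⟩ => ?_
  obtain ⟨O', b1, b2, N', g', b3⟩ := (open_iff W).1 hW z hz
  obtain ⟨x, hx, hzx⟩ := mem_iUnion₂.1 (ht (mem_univ z))
  obtain ⟨w, w1, w2⟩ := B_dense (max (N x) N') (fun n => max (g x n) (g' n)) ((o1 x).inter b1)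
    ⟨hzx, b2⟩
  exact ⟨w, b3 ⟨w1.2, B_mono (le_max_right _ _) (fun _ => le_max_right _ _) w2⟩, S x, ⟨x, hx, rfl⟩,
    o3 x ⟨w1.1, B_mono (le_max_left _ _) (fun _ => le_max_left _ _) w2⟩⟩

theorem result : ∃ (Y : Type) (_ : TopologicalSpace Y), T2Space Y ∧ AlmostScheepers Y ∧
    WeaklyScheepers Y ∧ ¬ WeaklyScheepersK Y := by
  refine ⟨X, inferInstance, ⟨fun x y hxy => ?_⟩, fun U hU => ?_, fun U hU => ?_, fun H => ?_⟩
  · obtain ⟨a, b, ha, hb, h1, h2, h3⟩ := t2_separation (X := K) hxy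
    exact ⟨a, b, fun z hz => ⟨a, ha, hz, 0, 0, inter_subset_left⟩,
      fun z hz => ⟨b, hb, hz, 0, 0, inter_subset_left⟩, h1, h2, h3⟩
  · choose V h1 h2 using fun n => fin_dense (U n) (hU n).1 (hU n).2
    refine ⟨V, h1, fun F _ => infinite_univ.mono fun n _ => ?_⟩
    rw [mem_ofPred_eq, (h2 n).closure_eq]; exact subset_univ _
  · choose V h1 h2 using fun n => fin_dense (U n) (hU n).1 (hU n).2
    exact ⟨V, h1, fun F _ hF => infinite_univ.mono fun n _ S hS =>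
      (h2 n).inter_open_nonempty S (hF S hS).1 (hF S hS).2⟩
  · obtain ⟨Y, hY, V, h1, h2⟩ := H (fun n => range fun k : ℕ => {x : X | h x n ≤ k}) fun n =>
      ⟨by rintro _ ⟨k, rfl⟩
          exact op_of (n + 1) 0 fun x hx => (hx.1 n (by omega)).trans_le (Nat.zero_le _),
       eq_univ_of_forall fun x => ⟨_, ⟨h x n, rfl⟩, le_refl (h x n)⟩⟩
    have : ∀ n, ∃ k, ∀ x ∈ ⋃₀ V n, h x n ≤ k := fun n => by
      obtain ⟨T, -, t1, t2⟩ := (exists_subset_image_finite_and (f := fun k : ℕ =>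
        {x : X | h x n ≤ k}) (s := univ) (p := fun W => V n ⊆ W)).1
        ⟨V n, by simpa using (h1 n).1, (h1 n).2, Subset.rfl⟩
      obtain ⟨k, hk⟩ := t1.bddAbove
      refine ⟨k, fun x ⟨S, hS, hx⟩ => ?_⟩
      obtain ⟨j, hj, rfl⟩ := t2 hS
      exact le_trans hx (hk hj)
    choose g hg using this
    obtain ⟨x, x1, x2⟩ := hY.inter_open_nonempty (B 0 g) (op_of 0 g Subset.rfl)
      ((B_dense 0 g isOpen_univ (mem_univ fun _ => true)).mono inter_subset_right)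
    obtain ⟨N, hN⟩ := eventually_atTop.1 x1.2
    refine h2 {x} (singleton_subset_iff.2 x2) (finite_singleton x) ((finite_lt_nat N).subset ?_)
    intro n hn
    by_contra hc
    exact absurd (hg n x (hn rfl)) (not_le.2 (hN n (not_lt.1 hc)))

end Pool.Agent.Results.MP_23a291_gt.HausdorffExample
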